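import Pool.Agent.H91.RF.TargetsR
import Pool.Agent.H91.RD.Basic

/-!
# MP_609556_an, full answer, module WLB: deep in the backward cone we have `u ≥ m`
-/

open MeasureTheory Set Filter Topology Metric
open Pool.Agent.H29.TF (hk P)
open Pool.Agent.H91.RD

open Pool.Agent.H91.RF

namespace Pool.Agent.H94.RF

theorem wlb (h1 : T_WBK) (h2 : T_ODEG) (h3 : T_GEOK) : T_WLB := by
  intro N f K cc C0 C9 η0 ka m U u hS hcc hF hC hV hm hm2 hf θ0 hθ0
  obtain ⟨lam, hlam, ρ, hρ, TW, hTW, HW⟩ := h1 N f K cc C0 C9 η0 U u hS hcc hF hV 1 one_pos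
  set θ1 : ℝ := min θ0 (min lam m) with hθ1
  have hθ1p : 0 < θ1 := lt_min hθ0 (lt_min hlam hm)
  have hθ1a : θ1 ≤ θ0 := min_le_left _ _
  have hθ1b : θ1 ≤ lam := (min_le_right _ _).trans (min_le_left _ _)
  have hθ1c : θ1 ≤ m := (min_le_right _ _).trans (min_le_right _ _)
  obtain ⟨L, S, hL, hSp, HO⟩ := h2 N f K θ1 (2 * m) m 1 hS.lip hθ1p (by linarith) hm2
    (fun s hs1 hs2 => hf s ⟨by linarith, hs2⟩) hm one_pos
  obtain ⟨hka0, hka1, ηc, hηc, Tc, hTc, HC⟩ := hC
  obtain ⟨ρg, hρg, Tg, hTg, HG⟩ := h3 N U (cc / 2) hS.condC hS.ne (by positivity) ηc hηc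
  -- constants
  set D : ℝ := (cc + 1) * S with hD
  have hDp : 0 < D := by positivity
  set η : ℝ := min ρ (min ρg (min (ηc / 2) (cc / 2))) with hη
  have hηp : 0 < η := lt_min hρ (lt_min hρg (lt_min (by positivity) (by positivity)))
  have hη1 : η ≤ ρ := min_le_left _ _
  have hη2 : η ≤ ρg := (min_le_right _ _).trans (min_le_left _ _)
  have hη3 : η ≤ ηc / 2 := (min_le_right _ _).trans ((min_le_right _ _).trans (min_le_left _ _))
  have hη4 : η ≤ cc / 2 := (min_le_right _ _).trans ((min_le_right _ _).trans (min_le_right _ _))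
  set B : ℝ := L + D + cc * S + ηc * S with hB
  have hBp : 0 < B := by positivity
  refine ⟨L + D, by positivity, η, hηp,
    max (max TW Tg) (max (Tc + S) (max (S / ρ) (max (D / ρg) (B / (ηc / 2))))),
    lt_max_of_lt_left (lt_max_of_lt_left hTW), ?_⟩
  intro t ht x e hN hx hu y hy hcone
  have ht1 : TW ≤ t := (le_max_left _ _).trans ((le_max_left _ _).trans ht)
  have ht2 : Tg ≤ t := (le_max_right _ _).trans ((le_max_left _ _).trans ht)
  have ht3 : Tc + S ≤ t := (le_max_left _ _).trans ((le_max_right _ _).trans ht)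
  have ht4 : S / ρ ≤ t :=
    (le_max_left _ _).trans ((le_max_right _ _).trans ((le_max_right _ _).trans ht))
  have ht5 : D / ρg ≤ t := (le_max_left _ _).trans ((le_max_right _ _).trans
    ((le_max_right _ _).trans ((le_max_right _ _).trans ht)))
  have ht6 : B / (ηc / 2) ≤ t := (le_max_right _ _).trans ((le_max_right _ _).trans
    ((le_max_right _ _).trans ((le_max_right _ _).trans ht)))
  rw [div_le_iff₀ hρ] at ht4
  rw [div_le_iff₀ hρg] at ht5
  rw [div_le_iff₀ (by positivity)] at ht6
  have htp : 0 < t := by linarith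
  have hmono : ∀ a b : ℝ, a ≤ b → NDir U a x e → NDir U b x e := by
    rintro a b hab ⟨he, ξ, e0, hd, hle⟩
    exact ⟨he, ξ, e0, hd, hle.trans hab⟩
  have he1 : ‖e‖ = 1 := hN.1
  have hηt : η * t ≤ ρ * t := mul_le_mul_of_nonneg_right hη1 htp.le
  have hηt4 : η * t ≤ cc / 2 * t := mul_le_mul_of_nonneg_right hη4 htp.le
  have hηt3 : η * t ≤ ηc / 2 * t := mul_le_mul_of_nonneg_right hη3 htp.le
  obtain ⟨hxa, hxb⟩ := abs_le.1 hx
  -- the point x1
  set x1 : E N := x - ((cc + 1) * S) • e with hx1
  have hdx1 : dist x1 x = D := by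
    rw [hx1, dist_eq_norm, sub_sub_cancel_left, norm_neg, norm_smul, he1, mul_one,
      Real.norm_eq_abs, abs_of_pos (by positivity)]
  have hux1 : θ1 ≤ u (t - S) x1 :=
    HW t ht1 x e (hmono _ _ hη1 hN) (hx.trans hηt) θ1 hθ1p hθ1b (hθ1a.trans hu) S
      ⟨hSp.le, by linarith⟩
  have hN1 : NDir U ηc x1 e := by
    refine HG t ht2 x e (hmono _ _ hη2 hN) (by linarith) x1 ?_
    rw [hdx1]
    linarith
  have hinf1 : infDist x1 U ≤ infDist x U + dist x1 x := infDist_le_infDist_add_dist
  have hinf2 : infDist x U ≤ infDist x1 U + dist x x1 := infDist_le_infDist_add_dist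
  rw [hdx1] at hinf1
  rw [dist_comm, hdx1] at hinf2
  have hccS : 0 < cc * S := by positivity
  have hηcS : 0 < ηc * S := by positivity
  have hx1U : |infDist x1 U - cc * (t - S)| ≤ ηc * (t - S) := by
    have e1 : cc * (t - S) = cc * t - cc * S := by ring
    have e2 : ηc * (t - S) = ηc * t - ηc * S := by ring
    rw [abs_le, e1, e2]
    constructor
    · linarith
    · linarith
  have hball : ∀ z ∈ closedBall y L, θ1 ≤ lift0 U u (t - S) z := by
    intro z hz
    rw [lift0_pos (by linarith : 0 < t - S)]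
    refine hux1.trans (HC (t - S) (by linarith) x1 e hN1 hx1U z ?_ ?_)
    · have h4 : dist z x1 ≤ dist z y + (dist y x + dist x x1) :=
        (dist_triangle _ _ _).trans (add_le_add le_rfl (dist_triangle _ _ _))
      rw [mem_closedBall] at hz
      rw [dist_comm x x1, hdx1] at h4
      have e2 : ηc * (t - S) = ηc * t - ηc * S := by ring
      rw [e2]
      linarith
    · have h5 := hcone (z + D • e) ?_
      · have h6 : x - (z + D • e) = x1 - z := by
          rw [hx1, hD]
          abel
        rw [h6] at h5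
        exact h5
      · rw [mem_closedBall] at hz ⊢
        have h7 : dist (z + D • e) y ≤ dist (z + D • e) z + dist z y := dist_triangle _ _ _
        have h8 : dist (z + D • e) z = D := by
          rw [dist_eq_norm, add_sub_cancel_left, norm_smul, he1, mul_one, Real.norm_eq_abs,
            abs_of_pos hDp]
        linarith
  have hfin := HO 0 (lift0 U u) hS.sol.mild hS.sol.rng (t - S) (by linarith) y hball y
    (mem_closedBall_self zero_le_one)
  rw [sub_add_cancel, lift0_pos htp] at hfin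
  linarith

end Pool.Agent.H94.RF
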