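import Pool.Agent.H91.RF.TargetsR
import Pool.Agent.H91.RF.TargetsA
import Pool.Agent.H91.RD.Basic

/-!
# MP_609556_an, full answer, module PSTG: the one-dimensional solution satisfies the standing
hypotheses
-/

set_option autoImplicit false

open MeasureTheory Set Filter Topology Metric
open Pool.Agent.H29.TF (hk P)
open Pool.Agent.H91.RD Pool.Agent.H91.RF

namespace Pool.Agent.H94.RF

/-- the half line -/
def HU : Set (E 1) := {x : E 1 | x 0 < 0}

/-- the unit vector -/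
noncomputable def e1 : E 1 := EuclideanSpace.single 0 1

theorem e1_zero : (e1 : E 1) 0 = 1 := by simp [e1]

theorem norm_E1 (x : E 1) : ‖x‖ = |x 0| := by
  rw [EuclideanSpace.norm_eq, Fin.sum_univ_one, Real.norm_eq_abs, Real.sqrt_sq_eq_abs, abs_abs]

theorem dist_E1 (x y : E 1) : dist x y = |x 0 - y 0| := by
  rw [dist_eq_norm, norm_E1]
  rfl

theorem inner_E1 (x y : E 1) : inner ℝ x y = x 0 * y 0 := by
  rw [PiLp.inner_apply, Fin.sum_univ_one]
  simp [mul_comm]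

theorem mv_zero (x : E 1) (a : ℝ) : (x - a • e1) 0 = x 0 - a := by
  have : (x - a • e1) 0 = x 0 - a * (e1 : E 1) 0 := rfl
  rw [this, e1_zero, mul_one]

theorem mv_dist (x : E 1) (a : ℝ) (ha : 0 ≤ a) : dist x (x - a • e1) = a := by
  rw [dist_E1, mv_zero]
  rw [show x 0 - (x 0 - a) = a by ring, abs_of_nonneg ha]

theorem infDist_HU (x : E 1) : infDist x HU = max (x 0) 0 := by
  by_cases hx : x 0 < 0
  · rw [max_eq_right hx.le]
    exact infDist_zero_of_mem (show x ∈ HU from hx)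
  · rw [not_lt] at hx
    rw [max_eq_left hx]
    refine le_antisymm ?_ ?_
    · refine le_of_forall_pos_le_add fun ε hε => ?_
      have hm : x - (x 0 + ε) • e1 ∈ HU := by
        show (x - (x 0 + ε) • e1) 0 < 0
        rw [mv_zero]
        linarith
      have h2 := infDist_le_dist_of_mem (x := x) hm
      rwa [mv_dist x _ (by linarith)] at h2
    · have hne : (HU : Set (E 1)).Nonempty := by
        refine ⟨x - (x 0 + 1) • e1, ?_⟩
        show (x - (x 0 + 1) • e1) 0 < 0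
        rw [mv_zero]
        linarith
      rw [le_infDist hne]
      intro y hy
      have hy' : y 0 < 0 := hy
      rw [dist_E1]
      exact (by linarith : x 0 ≤ x 0 - y 0).trans (le_abs_self _)

theorem HU_nonempty : (HU : Set (E 1)).Nonempty := by
  refine ⟨0 - (1 : ℝ) • e1, ?_⟩
  show (0 - (1 : ℝ) • e1 : E 1) 0 < 0
  rw [mv_zero]
  simp

theorem continuous_zero : Continuous fun x : E 1 => x 0 :=
  (EuclideanSpace.proj (𝕜 := ℝ) (0 : Fin 1)).continuous

theorem HU_open : IsOpen HU := isOpen_lt continuous_zero continuous_const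

theorem closure_HU (x : E 1) (hx : x ∈ closure HU) : x 0 ≤ 0 := by
  have h1 : closure HU ⊆ {x : E 1 | x 0 ≤ 0} :=
    closure_minimal (fun y (hy : y 0 < 0) => hy.le) (isClosed_le continuous_zero continuous_const)
  exact h1 hx

theorem HU_condC : CondC HU := by
  intro ε hε
  refine ⟨1, one_pos, ?_⟩
  intro x hx ξ hξ hd y hy
  have h1 : ξ 0 ≤ 0 := closure_HU ξ hξ
  have h2 : infDist x HU = x 0 := by
    rw [infDist_HU]
    rw [infDist_HU] at hx
    rcases le_or_gt (x 0) 0 with h | h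
    · rw [max_eq_right h] at hx
      linarith
    · exact max_eq_left h.le
  have h3 : 1 ≤ x 0 := by rwa [h2] at hx
  rw [h2, dist_E1] at hd
  have h4 : x 0 - ξ 0 = x 0 := by rwa [abs_of_nonneg (by linarith)] at hd
  have h5 : ξ 0 = 0 := by linarith
  have h6 : y 0 < 0 := hy
  have h7 : inner ℝ (x - ξ) (y - ξ) = (x 0 - ξ 0) * (y 0 - ξ 0) := by
    rw [inner_E1]
    rfl
  rw [h7, h5, sub_zero, sub_zero]
  have h8 : x 0 * y 0 ≤ 0 := by nlinarith
  have h9 : 0 ≤ ε * ‖x - ξ‖ * ‖y - ξ‖ := by positivity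
  linarith

section

variable {f : ℝ → ℝ} {Pv : ℝ → ℝ → ℝ}

theorem lift_eq : lift0 HU (fun t (x : E 1) => Pv t (x 0)) =
    fun t (x : E 1) => if t ≤ 0 then (if x 0 < 0 then 1 else 0) else Pv t (x 0) := by
  funext t x
  by_cases ht : t ≤ 0
  · rw [lift0_nonpos ht, if_pos ht]
    by_cases hx : x 0 < 0
    · rw [if_pos hx, chi_mem (show x ∈ HU from hx)]
    · rw [if_neg hx, chi_notMem (show x ∉ HU from hx)]
  · rw [lift0_pos (not_le.1 ht), if_neg ht]

theorem Pv_anti (h : Stp f Pv) {t : ℝ} (ht : 0 < t) : StrictAnti (Pv t) :=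
  strictAnti_of_deriv_neg (h.neg t ht)

theorem Pv_nonneg (h : Stp f Pv) {t : ℝ} (ht : 0 < t) (z : ℝ) : 0 ≤ Pv t z :=
  (Pv_anti h ht).antitone.le_of_tendsto (h.top t ht) z

theorem Pv_le_one (h : Stp f Pv) {t : ℝ} (ht : 0 < t) (z : ℝ) : Pv t z ≤ 1 :=
  (Pv_anti h ht).antitone.ge_of_tendsto (h.bot t ht) z

theorem lift_rng (h : Stp f Pv) : Rng 0 (lift0 HU (fun t (x : E 1) => Pv t (x 0))) := by
  intro t ht x
  rcases ht.lt_or_eq with h0 | h0
  · rw [lift0_pos h0]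
    exact ⟨Pv_nonneg h h0 _, Pv_le_one h h0 _⟩
  · rw [lift0_nonpos h0.ge]
    exact ⟨chi_nonneg _ _, chi_le_one _ _⟩

theorem solM (hM : T_MRG) {K : ℝ} (hR : Reaction f) (hL : Lip f K) (h : Stp f Pv) :
    SolM f HU (fun t (x : E 1) => Pv t (x 0)) := by
  set u : ℝ → E 1 → ℝ := fun t (x : E 1) => Pv t (x 0) with hu
  have hmild : Mild f 0 (lift0 HU u) := by
    rw [lift_eq]
    exact h.mild
  have hrng : Rng 0 (lift0 HU u) := lift_rng h
  obtain ⟨m1, m2, m3, m4, m5, m6, -⟩ := hM 1 f K (lift0 HU u) hR hL hmild hrng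
  have hev : ∀ t > 0, ∀ x, (fun s => lift0 HU u s x) =ᶠ[𝓝 t] fun s => u s x := by
    intro t ht x
    filter_upwards [lt_mem_nhds ht] with s hs
    rw [lift0_pos hs]
  have hder : ∀ t > 0, ∀ x, HasDerivAt (fun s => u s x)
      (Laplacian.laplacian (u t) x + f (u t x)) t := by
    intro t ht x
    have h1 := m2 t ht x
    rw [lift0_pos ht] at h1
    exact h1.congr_of_eventuallyEq (hev t ht x).symm
  refine ⟨HU_open.measurableSet, ?_, hmild, hrng⟩
  refine ⟨⟨1, ?_⟩, ?_, ?_, ?_, ?_, ?_, ?_, ?_, ?_⟩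
  · intro t ht x
    rw [abs_of_nonneg (Pv_nonneg h ht _)]
    exact Pv_le_one h ht _
  · intro t ht
    have h1 := m1 t ht
    rwa [lift0_pos ht] at h1
  · intro t ht x
    exact (hder t ht x).differentiableAt
  · refine hmild.cont.congr ?_
    rintro ⟨t, x⟩ ⟨ht, -⟩
    show u t x = lift0 HU u t x
    rw [lift0_pos ht]
  · refine m3.congr ?_
    rintro ⟨t, x⟩ ⟨ht, -⟩
    show fderiv ℝ (u t) x = fderiv ℝ (lift0 HU u t) x
    rw [lift0_pos ht]
  · refine m4.congr ?_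
    rintro ⟨t, x⟩ ⟨ht, -⟩
    show iteratedFDeriv ℝ 2 (u t) x = iteratedFDeriv ℝ 2 (lift0 HU u t) x
    rw [lift0_pos ht]
  · refine m5.congr ?_
    rintro ⟨t, x⟩ ⟨ht, -⟩
    show deriv (fun s => u s x) t = deriv (fun s => lift0 HU u s x) t
    exact (hev t ht x).deriv_eq.symm
  · intro t ht x
    exact (hder t ht x).deriv
  · intro R hRp
    refine (m6 R hRp).congr' ?_
    filter_upwards [self_mem_nhdsWithin] with t ht
    rw [lift0_pos ht, lift0_nonpos le_rfl]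

end

theorem pstg (h1 : T_MRG) (h2 : T_EXPJ) : T_PSTG := by
  intro f K J b c y Pv hR hL hT hP
  refine ⟨?_, infDist_HU⟩
  have hS : SolM f HU (fun t (x : E 1) => Pv t (x 0)) := solM h1 hR hL hP
  refine ⟨le_rfl, hR, hL, HU_nonempty, HU_condC, hS, ?_⟩
  intro η hη R hRp
  have hJ : J - 1 < J := by have := hT.J0; omega
  have hJ1 : J - 1 + 1 = J := by have := hT.J0; omega
  have hc : 0 < c (J - 1) := (hT.ext (J - 1) hJ).cpos
  have h3 : ∀ (N : ℕ) (f : ℝ → ℝ) (K : ℝ) (J : ℕ) (b c : ℕ → ℝ) (y : ℕ → ℝ → ℝ), 1 ≤ N →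
    Reaction f → Lip f K → Ter f J b c y → ∀ j < J, ExpJ N f (b (j + 1)) (c j) := h2
  obtain ⟨ℓ, L, R0, hl1, hl2, hL0, hR0, H⟩ := h3 1 f K J b c y le_rfl hR hL hT (J - 1) hJ
    (min η (c (J - 1) / 2)) (lt_min hη (half_pos hc))
  rw [hJ1, hT.bJ] at hl1 hl2
  have hεη : min η (c (J - 1) / 2) ≤ η := min_le_left _ _
  have hεc : min η (c (J - 1) / 2) ≤ c (J - 1) / 2 := min_le_right _ _
  have hcls : Cls f (fun t (x : E 1) => Pv t (x 0)) :=
    ⟨hS.sol.bdd, hS.sol.c2, hS.sol.dt, hS.sol.cont, hS.sol.eqn⟩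
  have hrg : ∀ t > 0, ∀ x : E 1, 0 ≤ Pv t (x 0) ∧ Pv t (x 0) ≤ 1 := fun t ht x =>
    ⟨Pv_nonneg hP ht _, Pv_le_one hP ht _⟩
  obtain ⟨Z, hZ⟩ : ∃ Z : ℝ, ∀ z ≤ Z, ℓ ≤ Pv 1 z := by
    have h4 : ∀ᶠ z in atBot, ℓ < Pv 1 z := (hP.bot 1 one_pos).eventually (lt_mem_nhds hl2)
    obtain ⟨Z, hZ⟩ := eventually_atBot.1 h4
    exact ⟨Z, fun z hz => (hZ z hz).le⟩
  set D : ℝ := |Z| + R0 + L + R with hD
  have hDp : 0 < D := by positivity
  refine ⟨D, hDp, 1, one_pos, ?_⟩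
  intro yy hyy
  refine ⟨yy - D • e1, (mv_dist yy D hDp.le).le, ?_⟩
  intro t ht z hz
  have hz' : dist z (yy - D • e1) ≤ R := mem_closedBall.1 hz
  have hball : ∀ w ∈ closedBall (yy - D • e1) (R0 + L + R), ℓ ≤ Pv 1 (w 0) := by
    intro w hw
    rw [mem_closedBall, dist_E1, mv_zero] at hw
    refine hZ _ ?_
    have h5 : w 0 - (yy 0 - D) ≤ R0 + L + R := (le_abs_self _).trans hw
    have h6 : yy 0 < 0 := hyy
    have h7 : -|Z| ≤ Z := neg_abs_le Z
    linarith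
  have h8 := H (fun t (x : E 1) => Pv t (x 0)) hcls hrg 1 one_pos (yy - D • e1) (R0 + L + R)
    (by linarith) hball (t - 1) (by linarith) z ?_
  · have h9 : 1 + (t - 1) = t := by ring
    rw [h9] at h8
    linarith
  · have h10 : 0 ≤ (c (J - 1) - min η (c (J - 1) / 2)) * (t - 1) :=
      mul_nonneg (by linarith) (by linarith)
    linarith

end Pool.Agent.H94.RF
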